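import Pool.Agent.H866R4.VD.Stmts

/-! Task P of project H866-VD: Hoffman certificates of categorical products. -/

set_option autoImplicit false

open Finset

namespace Pool.Agent.H866R4.VD

open scoped Kronecker

section
variable {V W : Type} [Fintype V] [Fintype W]

theorem Q_eq_dot (A : V → V → ℝ) (z : V → ℝ) :
    Q A z = dotProduct z ((Matrix.of A).mulVec z) := by
  simp only [Q, dotProduct, Matrix.mulVec, Matrix.of_apply, mul_sum]
  refine sum_congr rfl fun x _ => sum_congr rfl fun y _ => ?_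
  ring

theorem psd_of {A : V → V → ℝ} (hs : ∀ x y, A x y = A y x) (h : ∀ z, 0 ≤ Q A z) :
    (Matrix.of A).PosSemidef := by
  refine Matrix.PosSemidef.of_dotProduct_mulVec_nonneg ?_ fun z => ?_
  · ext x y
    simp [hs x y]
  · have := h z
    rw [Q_eq_dot] at this
    simpa using this

theorem kron_nonneg {P : V → V → ℝ} {R : W → W → ℝ}
    (hPs : ∀ x y, P x y = P y x) (hRs : ∀ x y, R x y = R y x)
    (hP : ∀ z, 0 ≤ Q P z) (hR : ∀ z, 0 ≤ Q R z) (z : V × W → ℝ) :
    0 ≤ Q (fun p q : V × W => P p.1 q.1 * R p.2 q.2) z := by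
  have h := (psd_of hPs hP).kronecker (psd_of hRs hR)
  have h2 := h.dotProduct_mulVec_nonneg z
  rw [Q_eq_dot]
  have h3 : (Matrix.of P) ⊗ₖ (Matrix.of R) =
      Matrix.of (fun p q : V × W => P p.1 q.1 * R p.2 q.2) := by
    ext p q
    simp [Matrix.kroneckerMap_apply]
  rw [h3] at h2
  simpa using h2

theorem Q_smul_arg (A : V → V → ℝ) (z : V → ℝ) (c : ℝ) :
    Q A (fun x => c * z x) = c ^ 2 * Q A z := by
  simp only [Q, mul_sum]
  refine sum_congr rfl fun x _ => sum_congr rfl fun y _ => ?_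
  ring

theorem Q_continuous (A : V → V → ℝ) : Continuous (Q A) := by
  unfold Q
  fun_prop

theorem exists_max {A : V → V → ℝ} {κ : ℝ} {w : V → ℝ} (hw : κ * ∑ x, w x ^ 2 < Q A w) :
    ∃ (la : ℝ) (w' : V → ℝ), κ < la ∧ (∀ z, Q A z ≤ la * ∑ x, z x ^ 2) ∧ ∑ x, w' x ^ 2 = 1 ∧
      Q A w' = la := by
  classical
  set S : Set (V → ℝ) := {z | ∑ x, z x ^ 2 = 1} with hS
  have hclosed : IsClosed S := isClosed_eq (by fun_prop) continuous_const
  have hbdd : Bornology.IsBounded S := by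
    rw [isBounded_iff_forall_norm_le]
    refine ⟨1, fun z hz => ?_⟩
    rw [pi_norm_le_iff_of_nonneg zero_le_one]
    intro x
    have h1 : z x ^ 2 ≤ ∑ x, z x ^ 2 :=
      single_le_sum (f := fun x => z x ^ 2) (fun y _ => sq_nonneg _) (mem_univ x)
    have h2 : z x ^ 2 ≤ 1 := h1.trans (le_of_eq hz)
    rw [Real.norm_eq_abs]
    exact abs_le_one_iff_mul_self_le_one.2 (by nlinarith)
  have hcomp : IsCompact S := Metric.isCompact_of_isClosed_isBounded hclosed hbdd
  have hnorm : ∀ z : V → ℝ, 0 < ∑ x, z x ^ 2 →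
      (fun x => (√(∑ x, z x ^ 2))⁻¹ * z x) ∈ S := by
    intro z hz
    change ∑ x, ((√(∑ x, z x ^ 2))⁻¹ * z x) ^ 2 = 1
    simp only [mul_pow]
    rw [← mul_sum, inv_pow, Real.sq_sqrt hz.le, inv_mul_cancel₀ hz.ne']
  have hzero : ∀ z : V → ℝ, ¬ 0 < ∑ x, z x ^ 2 → ∀ x, z x = 0 := by
    intro z hz x
    have h0 : ∑ x, z x ^ 2 = 0 := le_antisymm (not_lt.1 hz) (sum_nonneg fun x _ => sq_nonneg _)
    have := (sum_eq_zero_iff_of_nonneg (fun x _ => sq_nonneg (z x))).1 h0 x (mem_univ x)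
    exact pow_eq_zero_iff (two_ne_zero) |>.1 this
  have hw0 : 0 < ∑ x, w x ^ 2 := by
    by_contra hcon
    have h := hzero w hcon
    have h1 : Q A w = 0 := by simp [Q, h]
    have h2 : ∑ x, w x ^ 2 = 0 := by simp [h]
    rw [h1, h2] at hw
    simp at hw
  obtain ⟨w', hw'S, hmax⟩ := hcomp.exists_isMaxOn ⟨_, hnorm w hw0⟩ (Q_continuous A).continuousOn
  have hle : ∀ z, Q A z ≤ Q A w' * ∑ x, z x ^ 2 := by
    intro z
    by_cases hz : 0 < ∑ x, z x ^ 2
    · have h1 : Q A (fun x => (√(∑ x, z x ^ 2))⁻¹ * z x) ≤ Q A w' := hmax (hnorm z hz)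
      rw [Q_smul_arg, inv_pow, Real.sq_sqrt hz.le, inv_mul_le_iff₀ hz] at h1
      linarith
    · have h := hzero z hz
      have h1 : Q A z = 0 := by simp [Q, h]
      have h2 : ∑ x, z x ^ 2 = 0 := by simp [h]
      rw [h1, h2, mul_zero]
  refine ⟨Q A w', w', ?_, hle, hw'S, rfl⟩
  have h1 := hw.trans_le (hle w)
  exact lt_of_mul_lt_mul_right h1 hw0.le

theorem sum_delta [DecidableEq V] (z : V → ℝ) :
    Q (fun x y : V => if x = y then (1 : ℝ) else 0) z = ∑ x, z x ^ 2 := by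
  simp only [Q, ite_mul, one_mul, zero_mul, sum_ite_eq, mem_univ, if_true]
  refine sum_congr rfl fun x _ => ?_
  ring

theorem Q_lin (A B : V → V → ℝ) (α β : ℝ) (z : V → ℝ) :
    Q (fun x y => α * A x y + β * B x y) z = α * Q A z + β * Q B z := by
  simp only [Q, mul_sum, ← sum_add_distrib]
  refine sum_congr rfl fun x _ => sum_congr rfl fun y _ => ?_
  ring

end

theorem taskProd : TaskProd := by
  classical
  intro V W _ _ F F' κ hκ ⟨A, hA1, hA2, hA3, w, hw⟩ ⟨B, hB1, hB2, hB3, v, hv⟩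
  obtain ⟨la, w', hla, hmaxA, hw1, hwQ⟩ := exists_max hw
  obtain ⟨lb, v', hlb, hmaxB, hv1, hvQ⟩ := exists_max hv
  set μ := max la lb with hμ
  have hμ1 : 1 < μ := lt_of_le_of_lt hκ (lt_of_lt_of_le hla (le_max_left _ _))
  have hμ0 : 0 < μ := by linarith
  set K : V × W → V × W → ℝ := fun p q => A p.1 q.1 * B p.2 q.2 with hK
  set dV : V → V → ℝ := fun x y => if x = y then 1 else 0 with hdV
  set dW : W → W → ℝ := fun x y => if x = y then 1 else 0 with hdW
  set dP : V × W → V × W → ℝ := fun x y => if x = y then 1 else 0 with hdP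
  have hdmul : ∀ p q : V × W, dV p.1 q.1 * dW p.2 q.2 = dP p q := by
    intro p q
    simp only [hdV, hdW, hdP, Prod.ext_iff]
    by_cases h1 : p.1 = q.1 <;> by_cases h2 : p.2 = q.2 <;> simp [h1, h2]
  have hdVs : ∀ x y, dV x y = dV y x := by
    intro x y
    simp only [hdV, eq_comm]
  have hdWs : ∀ x y, dW x y = dW y x := by
    intro x y
    simp only [hdW, eq_comm]
  -- the two positive semidefinite products
  have hpos1 : ∀ z : V × W → ℝ, 0 ≤ Q (fun p q : V × W =>
      (1 * A p.1 q.1 + 1 * dV p.1 q.1) * (1 * B p.2 q.2 + 1 * dW p.2 q.2)) z := by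
    intro z
    apply kron_nonneg (P := fun x y => 1 * A x y + 1 * dV x y)
      (R := fun x y => 1 * B x y + 1 * dW x y)
    · intro x y; simp only [hA1 x y, hdVs x y]
    · intro x y; simp only [hB1 x y, hdWs x y]
    · intro z
      rw [Q_lin, sum_delta]
      have := hA3 z
      linarith
    · intro z
      rw [Q_lin, sum_delta]
      have := hB3 z
      linarith
  have hpos2 : ∀ z : V × W → ℝ, 0 ≤ Q (fun p q : V × W =>
      ((-1) * A p.1 q.1 + μ * dV p.1 q.1) * ((-1) * B p.2 q.2 + μ * dW p.2 q.2)) z := by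
    intro z
    apply kron_nonneg (P := fun x y => (-1) * A x y + μ * dV x y)
      (R := fun x y => (-1) * B x y + μ * dW x y)
    · intro x y; simp only [hA1 x y, hdVs x y]
    · intro x y; simp only [hB1 x y, hdWs x y]
    · intro z
      rw [Q_lin, sum_delta]
      have h1 := hmaxA z
      have h2 : la * ∑ x, z x ^ 2 ≤ μ * ∑ x, z x ^ 2 :=
        mul_le_mul_of_nonneg_right (le_max_left _ _) (sum_nonneg fun x _ => sq_nonneg _)
      linarith
    · intro z
      rw [Q_lin, sum_delta]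
      have h1 := hmaxB z
      have h2 : lb * ∑ x, z x ^ 2 ≤ μ * ∑ x, z x ^ 2 :=
        mul_le_mul_of_nonneg_right (le_max_right _ _) (sum_nonneg fun x _ => sq_nonneg _)
      linarith
  have hkey : ∀ z : V × W → ℝ, 0 ≤ Q K z + μ * ∑ x, z x ^ 2 := by
    intro z
    have h1 := Q_lin (fun p q : V × W =>
      (1 * A p.1 q.1 + 1 * dV p.1 q.1) * (1 * B p.2 q.2 + 1 * dW p.2 q.2))
      (fun p q : V × W =>
      ((-1) * A p.1 q.1 + μ * dV p.1 q.1) * ((-1) * B p.2 q.2 + μ * dW p.2 q.2)) μ 1 z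
    have h2 := Q_lin K dP (μ + 1) (μ * (μ + 1)) z
    have h3 : (fun p q : V × W => μ * ((1 * A p.1 q.1 + 1 * dV p.1 q.1) *
        (1 * B p.2 q.2 + 1 * dW p.2 q.2)) + 1 * (((-1) * A p.1 q.1 + μ * dV p.1 q.1) *
        ((-1) * B p.2 q.2 + μ * dW p.2 q.2))) =
        fun p q : V × W => (μ + 1) * K p q + (μ * (μ + 1)) * dP p q := by
      funext p q
      rw [← hdmul]
      simp only [hK]
      ring
    rw [h3, h2, sum_delta] at h1
    have h4 := hpos1 z
    have h5 := hpos2 z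
    have h6 : 0 ≤ (μ + 1) * (Q K z + μ * ∑ x, z x ^ 2) := by
      have : (μ + 1) * (Q K z + μ * ∑ x, z x ^ 2) =
        (μ + 1) * Q K z + μ * (μ + 1) * ∑ x, z x ^ 2 := by ring
      rw [this, h1]
      have := mul_nonneg hμ0.le h4
      linarith
    exact nonneg_of_mul_nonneg_right h6 (by linarith)
  refine ⟨fun p q => μ⁻¹ * K p q, ?_, ?_, ?_, fun p => w' p.1 * v' p.2, ?_⟩
  · intro p q
    simp only [hK, hA1 p.1 q.1, hB1 p.2 q.2]
  · intro p q hpq
    simp only [hK]
    by_cases h1 : F.Adj p.1 q.1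
    · have h2 : ¬ F'.Adj p.2 q.2 := fun h2 => hpq ⟨h1, h2⟩
      rw [hB2 _ _ h2]; simp
    · rw [hA2 _ _ h1]; simp
  · intro z
    have h1 := Q_lin K K μ⁻¹ 0 z
    simp only [zero_mul, add_zero] at h1
    rw [h1]
    have h2 := hkey z
    have h3 : 0 ≤ μ⁻¹ * (Q K z + μ * ∑ x, z x ^ 2) := mul_nonneg (inv_nonneg.2 hμ0.le) h2
    rw [mul_add, ← mul_assoc, inv_mul_cancel₀ hμ0.ne', one_mul] at h3
    linarith
  · have h1 := Q_lin K K μ⁻¹ 0 (fun p => w' p.1 * v' p.2)
    simp only [zero_mul, add_zero] at h1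
    rw [h1]
    have h2 : Q K (fun p => w' p.1 * v' p.2) = la * lb := by
      rw [← hwQ, ← hvQ]
      simp only [Q, hK, Fintype.sum_prod_type]
      rw [sum_mul_sum]
      refine sum_congr rfl fun x _ => sum_congr rfl fun u _ => ?_
      rw [sum_mul_sum]
      refine sum_congr rfl fun y _ => sum_congr rfl fun t _ => ?_
      ring
    have h3 : ∑ p : V × W, (w' p.1 * v' p.2) ^ 2 = 1 := by
      rw [Fintype.sum_prod_type]
      simp only [mul_pow, ← mul_sum]
      rw [← sum_mul, hw1, hv1, one_mul]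
    rw [h2, h3, mul_one]
    have h4 : μ * κ < la * lb := by
      rcases le_total la lb with h | h
      · have : μ = lb := max_eq_right h
        rw [this]
        have hlb0 : 0 < lb := by linarith
        nlinarith
      · have : μ = la := max_eq_left h
        rw [this]
        have hla0 : 0 < la := by linarith
        nlinarith
    rw [lt_inv_mul_iff₀ hμ0]
    exact h4

end Pool.Agent.H866R4.VD
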